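import Pool.Agent.N859.QW.Stm

/-!
# The multiplicative domain of a unital completely positive map

A unital completely positive map `Φ` on `B(K)` which fixes `a` and `a* a` satisfies
`Φ (a* T) = a* Φ T` and `Φ (T* a) = Φ (T*) a` for all `T`.
-/

set_option autoImplicit false

open scoped InnerProductSpace CStarAlgebra

namespace Pool.Agent.N833.QW

/-- a positive element of a C⋆-algebra is of the form `b* b`. -/
theorem ex_root {A : Type*} [NonUnitalCStarAlgebra A] [PartialOrder A] [StarOrderedRing A] {a : A}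
    (h : 0 ≤ a) : ∃ b, a = star b * b := CStarAlgebra.nonneg_iff_eq_star_mul_self.1 h

variable {K : Type} [NormedAddCommGroup K] [InnerProductSpace ℂ K] [CompleteSpace K]

/-- the matrix `Φ (c i * c j)` is of the form `Y* Y`. -/
theorem cp_factor (Φ : (K →L[ℂ] K) →CP (K →L[ℂ] K)) (c : Fin 3 → (K →L[ℂ] K)) :
    ∃ Y : Fin 3 → Fin 3 → (K →L[ℂ] K), ∀ i j,
      Φ (star (c i) * c j) = ∑ k, star (Y k i) * Y k j := by
  let N : CStarMatrix (Fin 3) (Fin 3) (K →L[ℂ] K) :=
    CStarMatrix.ofMatrix (Matrix.of fun k j => if k = 0 then c j else 0)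
  have hN : 0 ≤ star N * N := star_mul_self_nonneg N
  have h := CompletelyPositiveMap.map_cstarMatrix_nonneg Φ (star N * N) hN
  obtain ⟨Y, hY⟩ := ex_root h
  refine ⟨fun k j => Y k j, fun i j => ?_⟩
  have h1 : ((star N * N).map Φ) i j = (star Y * Y) i j := by rw [hY]
  rw [CStarMatrix.map_apply, CStarMatrix.mul_apply, CStarMatrix.mul_apply] at h1
  have h3 : ∀ k j, N k j = if k = 0 then c j else 0 := fun _ _ => rfl
  have h2 : ∑ k, (star N) i k * N k j = star (c i) * c j := by
    rw [Fin.sum_univ_three, CStarMatrix.star_apply, CStarMatrix.star_apply,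
      CStarMatrix.star_apply]
    simp only [h3]
    simp
  rw [h2] at h1
  rw [h1]
  rfl

/-- a sum of three positive elements `y* y` vanishes only if each `y` does. -/
theorem sum_zero (y : Fin 3 → (K →L[ℂ] K)) (h : ∑ k, star (y k) * y k = 0) (k : Fin 3) :
    y k = 0 := by
  ext x
  have h1 : ∑ k, ‖y k x‖ ^ 2 = 0 := by
    have h2 : ∀ Y : K →L[ℂ] K, ⟪x, (star Y * Y) x⟫_ℂ = ((‖Y x‖ ^ 2 : ℝ) : ℂ) := by
      intro Y
      rw [mul_apply_eq_comp, ContinuousLinearMap.star_eq_adjoint,
        ContinuousLinearMap.adjoint_inner_right, inner_self_eq_norm_sq_to_K]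
      norm_cast
    have h3 : ((∑ k, ‖y k x‖ ^ 2 : ℝ) : ℂ) = ⟪x, (∑ k, star (y k) * y k) x⟫_ℂ := by
      rw [sum_apply, inner_sum, Complex.ofReal_sum]
      exact Finset.sum_congr rfl fun k _ => (h2 (y k)).symm
    rw [h] at h3
    rw [zero_apply, inner_zero_right] at h3
    exact_mod_cast h3
  have h4 := (Finset.sum_eq_zero_iff_of_nonneg fun k _ => sq_nonneg ‖y k x‖).1 h1 k
    (Finset.mem_univ k)
  simpa using h4

/-- **The multiplicative domain** of a unital completely positive map. -/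
theorem t_bim (Φ : (K →L[ℂ] K) →CP (K →L[ℂ] K)) (h1 : Φ 1 = 1) (a : K →L[ℂ] K)
    (ha : Φ a = a) (haa : Φ (star a * a) = star a * a) (T : K →L[ℂ] K) :
    Φ (star a * T) = star a * Φ T ∧ Φ (star T * a) = Φ (star T) * a := by
  obtain ⟨Y, hY⟩ := cp_factor Φ ![1, a, T]
  have h00 : ∑ k, star (Y k 0) * Y k 0 = 1 := by
    rw [← hY 0 0]; simpa using h1
  have h01 : ∑ k, star (Y k 0) * Y k 1 = a := by
    rw [← hY 0 1]; simpa using ha
  have h10 : ∑ k, star (Y k 1) * Y k 0 = star a := by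
    rw [← h01, star_sum]
    refine Finset.sum_congr rfl fun k _ => ?_
    rw [star_mul, star_star]
  have h11 : ∑ k, star (Y k 1) * Y k 1 = star a * a := by
    rw [← hY 1 1]; simpa using haa
  have h02 : ∑ k, star (Y k 0) * Y k 2 = Φ T := by
    rw [← hY 0 2]; simp
  have h20 : ∑ k, star (Y k 2) * Y k 0 = Φ (star T) := by
    rw [← hY 2 0]; simp
  have h12 : ∑ k, star (Y k 1) * Y k 2 = Φ (star a * T) := by
    rw [← hY 1 2]; simp
  have h21 : ∑ k, star (Y k 2) * Y k 1 = Φ (star T * a) := by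
    rw [← hY 2 1]; simp
  have hz : ∑ k, star (Y k 1 - Y k 0 * a) * (Y k 1 - Y k 0 * a) = 0 := by
    have e : ∀ k, star (Y k 1 - Y k 0 * a) * (Y k 1 - Y k 0 * a) =
        star (Y k 1) * Y k 1 - (star (Y k 1) * Y k 0) * a - star a * (star (Y k 0) * Y k 1) +
          star a * (star (Y k 0) * Y k 0) * a := by
      intro k
      rw [star_sub, star_mul]
      noncomm_ring
    rw [Finset.sum_congr rfl fun k _ => e k, Finset.sum_add_distrib, Finset.sum_sub_distrib,
      Finset.sum_sub_distrib, ← Finset.sum_mul, ← Finset.mul_sum, ← Finset.sum_mul,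
      ← Finset.mul_sum, h00, h01, h10, h11]
    noncomm_ring
  have hk : ∀ k, Y k 1 = Y k 0 * a := fun k => sub_eq_zero.1 (sum_zero _ hz k)
  constructor
  · rw [← h12, ← h02, Finset.mul_sum]
    refine Finset.sum_congr rfl fun k _ => ?_
    rw [hk k, star_mul, mul_assoc]
  · rw [← h21, ← h20, Finset.sum_mul]
    refine Finset.sum_congr rfl fun k _ => ?_
    rw [hk k, mul_assoc]

end Pool.Agent.N833.QW
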